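import Pool.Agent.K7.H63.MR.Chg

/-!
# Blocks of digits in almost all multiples of `√2`

No hypothesis is assumed.  Let `b ≥ 2` be a base and `w` a block of `l` digits in base `b`.  For
every `ε > 0` there are `c > 0`, `M₀` and `n₀` such that for all `M ≥ M₀` and all `n ≥ n₀` at least
`(1 - ε) M` of the integers `m` in `[1, M]` have the property that the block `w` occurs at least
`c (log n) ^ 3 / (log log n) ^ 4` times among the first digits of `m √2` (at one of the places
`1, …, n` after the point) in base `b`.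
-/

set_option autoImplicit false

open Finset

namespace Pool.Agent.K7.H63.Weaker.BlocksInMultiples

/-- the `k`-th digit of `x` after the point in base `b` -/
noncomputable def digit (b : ℕ) (x : ℝ) (k : ℕ) : ℤ := ⌊x * (b : ℝ) ^ k⌋ % b

/-- the number of the `k` in `[1, n]` such that the digits of `x` in base `b` at the places
`k, k + 1, …, k + l - 1` after the point are `w 0, w 1, …, w (l - 1)` -/
noncomputable def occurrences (b l : ℕ) (w : ℕ → ℕ) (x : ℝ) (n : ℕ) : ℕ :=
  ((Icc 1 n).filter (fun k => ∀ i < l, digit b x (k + i) = w i)).card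

/-- the integer formed by the first `j` digits of `w` -/
def val (b : ℕ) (w : ℕ → ℕ) : ℕ → ℕ
  | 0 => 0
  | j + 1 => val b w j * b + w j

lemma val_lt {b : ℕ} {w : ℕ → ℕ} {l : ℕ} (hw : ∀ i < l, w i < b) :
    ∀ j ≤ l, val b w j < b ^ j := by
  intro j
  induction j with
  | zero => intro _; simp [val]
  | succ j ih =>
    intro hj
    have h1 := ih (by omega)
    have h2 := hw j (by omega)
    rw [val, pow_succ]
    have h3 : (val b w j + 1) * b ≤ b ^ j * b := Nat.mul_le_mul_right _ h1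
    nlinarith

lemma digits_of_val {b : ℕ} (hb : 2 ≤ b) {w : ℕ → ℕ} {l : ℕ} (hw : ∀ i < l, w i < b) (x : ℝ) (k : ℕ)
    (h : ⌊x * (b : ℝ) ^ (k + l)⌋ % ((b ^ l : ℕ) : ℤ) = val b w l) :
    ∀ i < l, digit b x (k + 1 + i) = w i := by
  have hbz : (0 : ℤ) < b := by exact_mod_cast (by omega : 0 < b)
  have hP : ∀ i ≤ l, ∃ z : ℤ, ⌊x * (b : ℝ) ^ (k + (l - i))⌋ =
      (b : ℤ) ^ (l - i) * z + val b w (l - i) := by
    intro i
    induction i with
    | zero =>
      intro _
      refine ⟨⌊x * (b : ℝ) ^ (k + l)⌋ / ((b ^ l : ℕ) : ℤ), ?_⟩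
      have h1 := Int.emod_add_mul_ediv ⌊x * (b : ℝ) ^ (k + l)⌋ ((b ^ l : ℕ) : ℤ)
      rw [h] at h1
      rw [Nat.sub_zero]
      push_cast at h1 ⊢
      linarith
    | succ i ih =>
      intro hi
      obtain ⟨z, hz⟩ := ih (by omega)
      obtain ⟨j, hj⟩ : ∃ j, l - i = j + 1 := ⟨l - i - 1, by omega⟩
      have hj' : l - (i + 1) = j := by omega
      rw [hj] at hz
      rw [hj']
      refine ⟨z, ?_⟩
      have h1 : ⌊x * (b : ℝ) ^ (k + (j + 1))⌋ / (b : ℤ) = ⌊x * (b : ℝ) ^ (k + j)⌋ :=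
        (Pool.Agent.K7.H63.MR.floor_step b x (k + j)).resolve_right (by omega)
      rw [← h1, hz, val]
      have h2 := hw j (by omega)
      push_cast
      have e : (b : ℤ) ^ (j + 1) * z + ((val b w j : ℤ) * b + w j) =
          w j + b * (b ^ j * z + val b w j) := by rw [pow_succ]; ring
      rw [e, Int.add_mul_ediv_left _ _ hbz.ne', Int.ediv_eq_zero_of_lt (Int.natCast_nonneg _)
        (by exact_mod_cast h2)]
      ring
  intro i hi
  obtain ⟨z, hz⟩ := hP (l - (i + 1)) (by omega)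
  have e : l - (l - (i + 1)) = i + 1 := by omega
  rw [e] at hz
  unfold digit
  have e2 : k + 1 + i = k + (i + 1) := by ring
  rw [e2, hz, val]
  have h2 := hw i hi
  push_cast
  have e : (b : ℤ) ^ (i + 1) * z + ((val b w i : ℤ) * b + w i) =
      w i + b * (b ^ i * z + val b w i) := by rw [pow_succ]; ring
  rw [e, Int.add_mul_emod_self_left]
  exact Int.emod_eq_of_lt (Int.natCast_nonneg _) (by exact_mod_cast h2)

lemma occ_le {b : ℕ} (hb : 2 ≤ b) {w : ℕ → ℕ} {l : ℕ} (hw : ∀ i < l, w i < b) (x : ℝ) (n : ℕ) :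
    Pool.Agent.K7.H63.MR.occW b l (val b w l) x n ≤ occurrences b l w x n := by
  unfold Pool.Agent.K7.H63.MR.occW occurrences
  refine card_le_card_of_injOn (fun k => k + 1) ?_ ?_
  · intro k hk
    rw [mem_coe, mem_filter, mem_range] at hk
    simp only [mem_coe, mem_filter, mem_Icc]
    exact ⟨⟨by omega, by omega⟩, digits_of_val hb hw x k hk.2⟩
  · intro u _ v _ h
    simpa using h

/-- The result. -/
theorem result (b : ℕ) (hb : 2 ≤ b) (l : ℕ) (w : ℕ → ℕ) (hw : ∀ i < l, w i < b)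
    (ε : ℝ) (hε : 0 < ε) :
    ∃ c : ℝ, 0 < c ∧ ∃ M₀ n₀ : ℕ, ∀ M n : ℕ, M₀ ≤ M → n₀ ≤ n →
      (1 - ε) * M ≤ (((Icc 1 M).filter (fun m : ℕ =>
        c * (Real.log n ^ 3 / Real.log (Real.log n) ^ 4) ≤
          occurrences b l w (m * Real.sqrt 2) n)).card : ℝ) := by
  classical
  obtain ⟨c, hc, M₁, n₁, H⟩ := Pool.Agent.K7.H63.MR.words_almost hb l (val b w l)
    (val_lt hw l le_rfl) (ε / 2) (by positivity)
  obtain ⟨M₂, hM₂⟩ := exists_nat_gt (2 / ε)
  refine ⟨c, hc, M₁ + M₂ + 1, n₁, ?_⟩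
  intro M n hM hn
  have G := H M n (by omega) hn
  set F := (Icc 1 M).filter (fun m : ℕ => c * (Real.log n ^ 3 / Real.log (Real.log n) ^ 4) ≤
          occurrences b l w (m * Real.sqrt 2) n) with hF
  set B := (range M).filter (fun m : ℕ => (Pool.Agent.K7.H63.MR.occW b l (val b w l)
      (m * Real.sqrt 2) n : ℝ) < c * (Real.log n ^ 3 / Real.log (Real.log n) ^ 4)) with hB
  have hsub : Icc 1 M ⊆ F ∪ (B ∪ {M}) := by
    intro m hm
    rw [mem_Icc] at hm
    rw [mem_union, mem_union, mem_singleton]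
    by_contra hcon
    push Not at hcon
    obtain ⟨hF1, hB1, hmM⟩ := hcon
    apply hF1
    rw [hB, mem_filter, mem_range] at hB1
    have h3 : c * (Real.log n ^ 3 / Real.log (Real.log n) ^ 4) ≤
        (Pool.Agent.K7.H63.MR.occW b l (val b w l) (m * Real.sqrt 2) n : ℝ) := by
      by_contra h; exact hB1 ⟨by omega, not_le.1 h⟩
    have h4 : (Pool.Agent.K7.H63.MR.occW b l (val b w l) (m * Real.sqrt 2) n : ℝ) ≤
        occurrences b l w (m * Real.sqrt 2) n := by exact_mod_cast occ_le hb hw _ n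
    rw [hF, mem_filter, mem_Icc]
    exact ⟨hm, h3.trans h4⟩
  have hcard := card_le_card hsub
  have hcard2 : M ≤ F.card + (B.card + 1) := by
    rw [Nat.card_Icc] at hcard
    have e1 := card_union_le F (B ∪ {M})
    have e2 := card_union_le B {M}
    rw [card_singleton] at e2
    omega
  have hcard3 : (M : ℝ) ≤ F.card + (B.card + 1) := by exact_mod_cast hcard2
  have h6 : (2 : ℝ) / ε < M := by
    refine hM₂.trans_le ?_
    exact_mod_cast (by omega : M₂ ≤ M)
  rw [div_lt_iff₀ hε] at h6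
  linarith

end Pool.Agent.K7.H63.Weaker.BlocksInMultiples
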